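import Pool.Agent.X235.Soc.Main

set_option autoImplicit false

/-!
A dual bound for a single second-order cone inequality which is polynomial in the number of
variables and the size of the subfamily and does not depend on the number of rows.
-/

namespace Pool.Agent.Results.MP_91ff8f_lc.DualBound

/-- The function `‖A x‖₂ + bᵀ x` of a second-order cone inequality with `d` rows. -/
noncomputable def soc {n d : ℕ} (A : Fin d → Fin n → ℝ) (b : Fin n → ℝ) (x : Fin n → ℕ) : ℝ :=
  Real.sqrt (∑ i, (∑ j, A i j * (x j : ℝ)) ^ 2) + ∑ j, b j * (x j : ℝ)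

/-- The family of maximal feasible vectors of `‖A x‖₂ + bᵀ x ≤ t` in the box `0 ≤ x ≤ c`. -/
def maxFeasible {n d : ℕ} (A : Fin d → Fin n → ℝ) (b : Fin n → ℝ) (t : ℝ) (c : Fin n → ℕ) :
    Set (Fin n → ℕ) := {x | Maximal (fun y => y ≤ c ∧ soc A b y ≤ t) x}

/-- The dual `I(S)`: the minimal vectors of the box `0 ≤ x ≤ c` which lie below no member
of `S`. -/
def dual {n : ℕ} (c : Fin n → ℕ) (S : Set (Fin n → ℕ)) : Set (Fin n → ℕ) :=
  {x | Minimal (fun y => y ≤ c ∧ ∀ s ∈ S, ¬ y ≤ s) x}

open scoped RealInnerProductSpace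

/-- The rows as vectors. -/
noncomputable def col {n d : ℕ} (A : Fin d → Fin n → ℝ) (j : Fin n) : EuclideanSpace ℝ (Fin d) :=
  WithLp.toLp 2 fun i => A i j

theorem col_inner {n d : ℕ} {A : Fin d → Fin n → ℝ} (hA : ∀ i j, 0 ≤ A i j) (j k : Fin n) :
    0 ≤ ⟪col A j, col A k⟫ := by
  rw [PiLp.inner_apply]
  refine Finset.sum_nonneg fun i _ => ?_
  simp only [col, RCLike.inner_apply, conj_trivial]
  exact mul_nonneg (hA _ _) (hA _ _)

theorem soc_eq {n d : ℕ} (A : Fin d → Fin n → ℝ) (b : Fin n → ℝ) (x : Fin n → ℕ) :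
    soc A b x = Pool.Agent.X235.Soc.ff (col A) b x := by
  unfold soc Pool.Agent.X235.Soc.ff
  congr 1
  rw [EuclideanSpace.norm_eq]
  congr 1
  refine Finset.sum_congr rfl fun i _ => ?_
  rw [Real.norm_eq_abs, sq_abs]
  congr 1
  unfold Pool.Agent.X235.Soc.V col
  rw [WithLp.ofLp_sum, Finset.sum_apply]
  refine Finset.sum_congr rfl fun j _ => ?_
  simp [mul_comm]

/-- For one second-order cone inequality with nonnegative data in `n` variables and `d` rows, every
subfamily `Y` of the maximal feasible vectors has at most `1 + |Y| n (n+1)^120` common minimal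
non-dominated vectors with the whole family. -/
theorem result {n d : ℕ} (A : Fin d → Fin n → ℝ) (hA : ∀ i j, 0 ≤ A i j)
    (b : Fin n → ℝ) (hb : ∀ j, 0 ≤ b j) (t : ℝ) (c : Fin n → ℕ)
    (Y : Set (Fin n → ℕ)) (hY : Y ⊆ maxFeasible A b t c) :
    Y.Finite ∧ (dual c Y ∩ dual c (maxFeasible A b t c)).Finite ∧
    (dual c Y ∩ dual c (maxFeasible A b t c)).ncard ≤ 1 + Y.ncard * n * (n + 1) ^ 120 := by
  classical
  have hbox : (Set.Iic c).Finite := Set.finite_Iic c
  have hYfin : Y.Finite := hbox.subset fun y hy => (hY hy).1.1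
  have hDfin : (dual c Y ∩ dual c (maxFeasible A b t c)).Finite :=
    hbox.subset fun y hy => hy.1.1.1
  refine ⟨hYfin, hDfin, ?_⟩
  obtain ⟨T, hT1, hT2⟩ := Pool.Agent.X235.Soc.main (col_inner hA) hb t hYfin.toFinset (by
    intro y hy
    rw [Set.Finite.mem_toFinset] at hy
    rw [← soc_eq]
    exact (hY hy).1.2)
  have hsub : dual c Y ∩ dual c (maxFeasible A b t c) ⊆ ((insert 0 T : Finset _) : Set _) := by
    intro x hx
    rw [Finset.coe_insert, Set.mem_insert_iff]
    by_cases hx0 : x = 0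
    · exact Or.inl hx0
    · right
      refine hT2 x hx0 ?_ ?_ ?_
      · -- infeasibility
        rw [← soc_eq]
        by_contra hcon
        rw [not_lt] at hcon
        have hfin : {y : Fin n → ℕ | (y ≤ c ∧ soc A b y ≤ t) ∧ x ≤ y}.Finite :=
          hbox.subset fun y hy => hy.1.1
        obtain ⟨m, hm1, hm2⟩ := hfin.exists_le_maximal (a := x) ⟨⟨hx.1.1.1, hcon⟩, le_refl x⟩
        refine hx.2.1.2 m ⟨hm2.1.1, fun y hy hmy => ?_⟩ hm1
        exact hm2.2 ⟨hy, hm1.trans hmy⟩ hmy
      · intro y hy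
        rw [Set.Finite.mem_toFinset] at hy
        exact hx.1.1.2 y hy
      · intro i hi
        by_contra hcon
        push Not at hcon
        have h1 : x - Pi.single i 1 ≤ x := tsub_le_self
        have h2 := hx.1.2 (y := x - Pi.single i 1) ⟨h1.trans hx.1.1.1, fun y hy =>
          hcon y (by rw [Set.Finite.mem_toFinset]; exact hy)⟩ h1
        have h3 := h2 i
        simp only [Pi.sub_apply, Pi.single_eq_same] at h3
        omega
  have h1 := Set.ncard_le_ncard hsub (Finset.finite_toSet _)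
  rw [Set.ncard_coe_finset] at h1
  have h2 := Finset.card_insert_le (0 : Fin n → ℕ) T
  rw [Set.ncard_eq_toFinset_card Y hYfin]
  omega

end Pool.Agent.Results.MP_91ff8f_lc.DualBound
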